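import Pool.Agent.H27.L1.H23.GZ.Targets5

/-!
# Integration over all columns: row COL (helper30)
-/

set_option autoImplicit false

namespace Pool.Agent.H27.L1.H30.GZ

open MeasureTheory Pool.Agent.H27.L1.H34.GM Pool.Agent.H27.L1.H34.GZ

theorem gs_congr {m : ℕ} (f g : Fin m → EuclideanSpace ℝ (Fin m)) (n : Fin m)
    (h : ∀ i ≤ n, f i = g i) :
    InnerProductSpace.gramSchmidt ℝ f n = InnerProductSpace.gramSchmidt ℝ g n := by
  induction n using WellFoundedLT.induction with
  | _ n ih =>
    rw [InnerProductSpace.gramSchmidt_def, InnerProductSpace.gramSchmidt_def, h n le_rfl]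
    congr 1
    refine Finset.sum_congr rfl fun i hi => ?_
    have hi' := Finset.mem_Iio.1 hi
    rw [ih i hi' (fun l hl => h l (hl.trans hi'.le))]

theorem meas_col {m : ℕ} (j : Fin m) : Measurable fun z : V m => col (mt z) j := by
  have h : Continuous fun z : V m => col (mt z) j := by
    unfold col
    refine (PiLp.continuous_toLp 2 _).comp ?_
    refine continuous_pi fun i => ?_
    exact (continuous_apply j).comp (continuous_apply i)
  exact h.measurable

theorem meas_oc {m : ℕ} (j : Fin m) : Measurable fun z : V m => oc (mt z) j := by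
  induction j using WellFoundedLT.induction with
  | _ n ih =>
    have e : (fun z : V m => oc (mt z) n) = fun z : V m => col (mt z) n -
        ∑ i ∈ Finset.Iio n, (inner ℝ (oc (mt z) i) (col (mt z) n) / (‖oc (mt z) i‖ ^ 2)) •
          oc (mt z) i := by
      funext z
      unfold oc
      rw [InnerProductSpace.gramSchmidt_def]
      congr 1
      refine Finset.sum_congr rfl fun i _ => ?_
      rw [Submodule.starProjection_singleton]
      simp
    rw [e]
    refine (meas_col n).sub (Finset.measurable_fun_sum _ fun i hi => ?_)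
    have h1 := ih i (Finset.mem_Iio.1 hi)
    have h2 := meas_col (m := m) n
    exact ((h1.inner h2).div (h1.norm.pow_const 2)).smul h1

/-- the factor of the column `j` -/
noncomputable def gf {m : ℕ} (B β : ℝ) (j : Fin m) (z : V m) : ENNReal :=
  ENNReal.ofReal (‖oc (mt z) j‖ ^ β * (1 + ‖col (mt z) j‖) ^ (-(B + m + 1)))

theorem meas_gf {m : ℕ} (B β : ℝ) (j : Fin m) : Measurable (gf (m := m) B β j) := by
  unfold gf
  have h1 := (meas_oc (m := m) j).norm
  have h2 := (meas_col (m := m) j).norm
  exact ENNReal.measurable_ofReal.comp ((h1.pow_const β).mul ((h2.const_add 1).pow_const _))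

/-- the columns `≥ k` are in the cube -/
def Qk (m k : ℕ) : Set (V m) := {z | ∀ i l : Fin m, k ≤ l.val → z i l ∈ Set.Icc (0 : ℝ) 1}

theorem meas_Qk (m k : ℕ) : MeasurableSet (Qk m k) := by
  have e : Qk m k = ⋂ i : Fin m, ⋂ l : Fin m, {z : V m | k ≤ l.val → z i l ∈ Set.Icc (0 : ℝ) 1} := by
    ext z
    simp [Qk]
  rw [e]
  refine MeasurableSet.iInter fun i => MeasurableSet.iInter fun l => ?_
  by_cases h : k ≤ l.val
  · have e2 : {z : V m | k ≤ l.val → z i l ∈ Set.Icc (0 : ℝ) 1} =
        (fun z : V m => z i l) ⁻¹' Set.Icc (0 : ℝ) 1 := by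
      ext z
      simp [h]
    rw [e2]
    have h1 : Measurable fun z : V m => z i l :=
      (measurable_pi_apply l).comp (measurable_pi_apply i)
    exact h1 measurableSet_Icc
  · have e2 : {z : V m | k ≤ l.val → z i l ∈ Set.Icc (0 : ℝ) 1} = Set.univ := by
      ext z
      simp [h]
    rw [e2]
    exact MeasurableSet.univ

theorem vol_Q0 (m : ℕ) : volume (Qk m 0) = 1 := by
  have e : Qk m 0 = Set.univ.pi fun _ : Fin m => Set.univ.pi fun _ : Fin m =>
      Set.Icc (0 : ℝ) 1 := by
    ext z
    simp only [Qk, Set.mem_ofPred_eq, Set.mem_univ_pi]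
    constructor
    · intro h i l
      exact h i l (Nat.zero_le _)
    · intro h i l _
      exact h i l
  rw [e, volume_pi_pi]
  refine Finset.prod_eq_one fun i _ => ?_
  rw [volume_pi_pi]
  refine Finset.prod_eq_one fun l _ => ?_
  simp

theorem col_rc {m : ℕ} (j l : Fin m) (z : V m) (c : EuclideanSpace ℝ (Fin m)) :
    col (mt (rc j z c)) l = if l = j then c else col (mt z) l := by
  unfold col rc
  ext i
  by_cases h : l = j
  · simp [h]
  · simp [h]

/-- the iterated integrals -/
noncomputable def Ik {m : ℕ} (B : ℝ) (β : Fin m → ℝ) (k : ℕ) : ENNReal :=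
  ∫⁻ z in Qk m k, ∏ j ∈ Finset.univ.filter (fun j : Fin m => j.val < k), gf B (β j) j z

theorem step (h1 : T_GSM) (h2 : T_CFB) {m : ℕ} (B : ℝ) (β : Fin m → ℝ) (C : ENNReal) (k : ℕ)
    (hk : k < m)
    (hC : ∀ W : Submodule ℝ (EuclideanSpace ℝ (Fin m)), Module.finrank ℝ W ≤ k →
      ∫⁻ c : EuclideanSpace ℝ (Fin m), ENNReal.ofReal
        (‖c - W.starProjection c‖ ^ β ⟨k, hk⟩ * (1 + ‖c‖) ^ (-(B + m + 1))) ≤ C) :
    Ik B β (k + 1) ≤ C * Ik B β k := by
  classical
  set j : Fin m := ⟨k, hk⟩ with hj
  set P : V m → ENNReal := fun z =>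
    ∏ l ∈ Finset.univ.filter (fun l : Fin m => l.val < k), gf B (β l) l z with hP
  have hPm : Measurable P := by
    rw [hP]
    exact Finset.measurable_fun_prod _ fun l _ => meas_gf B (β l) l
  have hfil : Finset.univ.filter (fun l : Fin m => l.val < k + 1) =
      insert j (Finset.univ.filter (fun l : Fin m => l.val < k)) := by
    ext l
    simp only [Finset.mem_filter, Finset.mem_univ, true_and, Finset.mem_insert]
    constructor
    · intro h
      rcases Nat.lt_succ_iff_lt_or_eq.1 h with h | h
      · exact Or.inr h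
      · exact Or.inl (Fin.ext h)
    · rintro (h | h)
      · rw [h, hj]; exact Nat.lt_succ_self k
      · omega
  have hni : j ∉ Finset.univ.filter (fun l : Fin m => l.val < k) := by
    simp [hj]
  set F : V m → ENNReal := (Qk m (k + 1)).indicator fun z => gf B (β j) j z * P z with hF
  have hFm : Measurable F := by
    rw [hF]
    exact ((meas_gf B (β j) j).mul hPm).indicator (meas_Qk m (k + 1))
  have e0 : Ik B β (k + 1) = ∫⁻ z, F z := by
    rw [hF, lintegral_indicator (meas_Qk m (k + 1))]
    unfold Ik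
    rw [hfil]
    refine lintegral_congr fun z => ?_
    rw [Finset.prod_insert hni]
  have hmp := h2 m j
  have hFc' : Measurable fun a : V m × EuclideanSpace ℝ (Fin m) => F (rc j a.1 a.2) :=
    hFm.comp hmp.measurable
  rw [e0, ← hmp.lintegral_comp hFm, lintegral_prod _ hFc'.aemeasurable]
  have hin : ∀ z : V m, ∫⁻ c, F (rc j z c) ≤ C * (Qk m (k + 1)).indicator P z := by
    intro z
    have hmem : ∀ c, rc j z c ∈ Qk m (k + 1) ↔ z ∈ Qk m (k + 1) := by
      intro c
      unfold Qk rc
      simp only [Set.mem_ofPred_eq]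
      constructor
      · intro h i l hl
        have h3 := h i l hl
        rwa [if_neg (by intro h4; rw [h4, hj] at hl; simp at hl)] at h3
      · intro h i l hl
        rw [if_neg (by intro h4; rw [h4, hj] at hl; simp at hl)]
        exact h i l hl
    by_cases hz : z ∈ Qk m (k + 1)
    · rw [Set.indicator_of_mem hz]
      have hPc : ∀ c, P (rc j z c) = P z := by
        intro c
        simp only [hP]
        refine Finset.prod_congr rfl fun l hl => ?_
        have hl' : l.val < k := (Finset.mem_filter.1 hl).2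
        have hne : ∀ i : Fin m, i ≤ l → i ≠ j := by
          intro i hi h3
          rw [h3] at hi
          have : k ≤ l.val := hi
          omega
        unfold gf
        rw [col_rc, if_neg (hne l le_rfl)]
        have h3 : oc (mt (rc j z c)) l = oc (mt z) l := by
          unfold oc
          refine gs_congr _ _ l fun i hi => ?_
          rw [col_rc, if_neg (hne i hi)]
        rw [h3]
      set W : Submodule ℝ (EuclideanSpace ℝ (Fin m)) :=
        Submodule.span ℝ (col (mt z) '' Set.Iio j) with hW
      have hWr : Module.finrank ℝ W ≤ k := by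
        rw [hW]
        refine (finrank_span_le_card _).trans ?_
        rw [Set.toFinset_image]
        refine Finset.card_image_le.trans ?_
        rw [Set.toFinset_Iio, Fin.card_Iio]
      have hg : ∀ c, gf B (β j) j (rc j z c) = ENNReal.ofReal
          (‖c - W.starProjection c‖ ^ β j * (1 + ‖c‖) ^ (-(B + m + 1))) := by
        intro c
        unfold gf
        have h3 := (h1 m (mt (rc j z c))).2.2.2.2.2.1 j
        have h4 : col (mt (rc j z c)) '' Set.Iio j = col (mt z) '' Set.Iio j := by
          refine Set.image_congr fun l hl => ?_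
          rw [col_rc, if_neg (ne_of_lt hl)]
        have hproj : ∀ (W₁ W₂ : Submodule ℝ (EuclideanSpace ℝ (Fin m)))
            (x : EuclideanSpace ℝ (Fin m)), W₁ = W₂ →
            W₁.starProjection x = W₂.starProjection x := by
          rintro W₁ W₂ x rfl
          rfl
        rw [h3, hproj _ W _ (by rw [h4]), col_rc, if_pos rfl]
      have hFc : ∀ c, F (rc j z c) = P z * gf B (β j) j (rc j z c) := by
        intro c
        rw [hF, Set.indicator_of_mem ((hmem c).2 hz), hPc c, mul_comm]
      calc ∫⁻ c, F (rc j z c) = ∫⁻ c, P z * gf B (β j) j (rc j z c) :=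
            lintegral_congr fun c => hFc c
        _ = P z * ∫⁻ c, gf B (β j) j (rc j z c) := by
            rw [lintegral_const_mul]
            have : Measurable fun c : EuclideanSpace ℝ (Fin m) => rc j z c :=
              hmp.measurable.comp measurable_prodMk_left
            exact (meas_gf B (β j) j).comp this
        _ ≤ P z * C := by
            gcongr
            refine le_trans (le_of_eq (lintegral_congr fun c => hg c)) (hC W hWr)
        _ = C * P z := mul_comm _ _
    · have h3 : ∀ c, F (rc j z c) = 0 := by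
        intro c
        rw [hF, Set.indicator_of_notMem (fun h => hz ((hmem c).1 h))]
      simp [h3]
  calc ∫⁻ z, ∫⁻ c, F (rc j z c) ∂volume
        ∂(volume.restrict {z : V m | ∀ i, z i j ∈ Set.Icc (0 : ℝ) 1})
      ≤ ∫⁻ z, C * (Qk m (k + 1)).indicator P z
        ∂(volume.restrict {z : V m | ∀ i, z i j ∈ Set.Icc (0 : ℝ) 1}) :=
        lintegral_mono fun z => hin z
    _ = C * ∫⁻ z, (Qk m (k + 1)).indicator P z
        ∂(volume.restrict {z : V m | ∀ i, z i j ∈ Set.Icc (0 : ℝ) 1}) := by
        rw [lintegral_const_mul _ (hPm.indicator (meas_Qk m (k + 1)))]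
    _ = C * Ik B β k := by
        congr 1
        rw [lintegral_indicator (meas_Qk m (k + 1)), Measure.restrict_restrict
          (meas_Qk m (k + 1))]
        unfold Ik
        congr 2
        ext z
        simp only [Qk, Set.mem_inter_iff, Set.mem_ofPred_eq]
        constructor
        · rintro ⟨h3, h4⟩ i l hl
          rcases Nat.eq_or_lt_of_le hl with h5 | h5
          · have : l = j := Fin.ext h5.symm
            rw [this]
            exact h4 i
          · exact h3 i l h5
        · intro h3
          exact ⟨fun i l hl => h3 i l (by omega), fun i => h3 i j le_rfl⟩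

theorem pf_COL : T_GSM → T_CFB → T_CL1 → T_COL := by
  intro h1 h2 h3 m hm η B hη hB
  obtain ⟨C, hC, hCL⟩ := h3 m η B hη hB
  have hm0 : (1 : ℝ) ≤ m := by exact_mod_cast hm
  set E : ℝ := B + m + 1 with hE
  have hE0 : 0 < E := by rw [hE]; linarith
  set K : ℝ := (m : ℝ) ^ E with hK
  have hK0 : 0 < K := by rw [hK]; positivity
  refine ⟨K ^ m * C ^ m, by positivity, ?_⟩
  intro β hβ
  have hI : ∀ k : ℕ, k ≤ m → Ik B β k ≤ ENNReal.ofReal C ^ k := by
    intro k
    induction k with
    | zero =>
      intro _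
      unfold Ik
      have e : Finset.univ.filter (fun j : Fin m => j.val < 0) = ∅ := by
        ext j
        simp
      rw [e]
      simp [vol_Q0]
    | succ k ih =>
      intro hk
      have hk' : k < m := hk
      have hs := step h1 h2 B β (ENNReal.ofReal C) k hk' (by
        intro W hW
        refine hCL W _ rfl (lt_of_le_of_lt hW hk') (β ⟨k, hk'⟩) ?_ (hβ ⟨k, hk'⟩).2
        have h4 := (hβ ⟨k, hk'⟩).1
        have h5 : (Module.finrank ℝ W : ℝ) ≤ k := by exact_mod_cast hW
        simp only at h4
        linarith)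
      refine hs.trans ?_
      rw [pow_succ, mul_comm]
      gcongr
      exact ih (by omega)
  have hQ : Qk m m = Set.univ := by
    ext z
    simp only [Qk, Set.mem_ofPred_eq, Set.mem_univ, iff_true]
    intro i l hl
    have := l.isLt
    omega
  have hIm : ∫⁻ z : V m, ∏ j, gf B (β j) j z ≤ ENNReal.ofReal C ^ m := by
    have h4 := hI m le_rfl
    unfold Ik at h4
    rw [hQ, Measure.restrict_univ] at h4
    have e : Finset.univ.filter (fun j : Fin m => j.val < m) = Finset.univ := by
      ext j
      simp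
    rwa [e] at h4
  have hpt : ∀ z : V m, ENNReal.ofReal ((∏ j, ‖oc (mt z) j‖ ^ β j) *
      (1 + sz (mt z)) ^ (-((m : ℝ) * (B + m + 1)))) ≤
      ENNReal.ofReal (K ^ m) * ∏ j, gf B (β j) j z := by
    intro z
    have hsz : 0 ≤ sz (mt z) := by unfold sz; exact norm_nonneg _
    have hcol : ∀ j, (1 + sz (mt z)) ^ (-E) ≤ K * (1 + ‖col (mt z) j‖) ^ (-E) := by
      intro j
      have h4 : ‖col (mt z) j‖ ≤ m * sz (mt z) := ((h1 m (mt z)).2.2.2.2.1 j).2
      have h5 : 1 + ‖col (mt z) j‖ ≤ m * (1 + sz (mt z)) := by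
        rw [mul_add, mul_one]
        linarith
      have h6 : (0 : ℝ) < 1 + ‖col (mt z) j‖ := by positivity
      have h7 : (0 : ℝ) < 1 + sz (mt z) := by positivity
      have h8 : (1 + ‖col (mt z) j‖) ^ E ≤ K * (1 + sz (mt z)) ^ E := by
        rw [hK, ← Real.mul_rpow (by linarith) h7.le]
        exact Real.rpow_le_rpow h6.le h5 hE0.le
      rw [Real.rpow_neg h7.le, Real.rpow_neg h6.le, ← div_eq_mul_inv, inv_eq_one_div,
        div_le_div_iff₀ (Real.rpow_pos_of_pos h7 E) (Real.rpow_pos_of_pos h6 E), one_mul]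
      exact h8
    have hmul : (1 + sz (mt z)) ^ (-((m : ℝ) * (B + m + 1))) =
        ∏ _j : Fin m, (1 + sz (mt z)) ^ (-E) := by
      rw [Finset.prod_const, Finset.card_univ, Fintype.card_fin, ← Real.rpow_natCast,
        ← Real.rpow_mul (by positivity)]
      congr 1
      rw [hE]
      ring
    have hprod : (∏ j, ‖oc (mt z) j‖ ^ β j) * (1 + sz (mt z)) ^ (-((m : ℝ) * (B + m + 1))) ≤
        K ^ m * ∏ j, (‖oc (mt z) j‖ ^ β j * (1 + ‖col (mt z) j‖) ^ (-(B + m + 1))) := by
      rw [hmul, ← Finset.prod_mul_distrib]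
      have e1 : K ^ m = ∏ _j : Fin m, K := by
        rw [Finset.prod_const, Finset.card_univ, Fintype.card_fin]
      rw [e1, ← Finset.prod_mul_distrib]
      refine Finset.prod_le_prod (fun j _ => by positivity) fun j _ => ?_
      have h4 := mul_le_mul_of_nonneg_left (hcol j)
        (by positivity : 0 ≤ ‖oc (mt z) j‖ ^ β j)
      refine h4.trans (le_of_eq ?_)
      rw [hE]
      ring
    calc ENNReal.ofReal ((∏ j, ‖oc (mt z) j‖ ^ β j) *
          (1 + sz (mt z)) ^ (-((m : ℝ) * (B + m + 1))))
        ≤ ENNReal.ofReal (K ^ m *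
          ∏ j, (‖oc (mt z) j‖ ^ β j * (1 + ‖col (mt z) j‖) ^ (-(B + m + 1)))) :=
          ENNReal.ofReal_le_ofReal hprod
      _ = ENNReal.ofReal (K ^ m) * ∏ j, gf B (β j) j z := by
          rw [ENNReal.ofReal_mul (by positivity), ENNReal.ofReal_prod_of_nonneg
            (fun j _ => by positivity)]
          rfl
  calc ∫⁻ z : V m, ENNReal.ofReal ((∏ j, ‖oc (mt z) j‖ ^ β j) *
        (1 + sz (mt z)) ^ (-((m : ℝ) * (B + m + 1))))
      ≤ ∫⁻ z : V m, ENNReal.ofReal (K ^ m) * ∏ j, gf B (β j) j z :=
        lintegral_mono fun z => hpt z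
    _ = ENNReal.ofReal (K ^ m) * ∫⁻ z : V m, ∏ j, gf B (β j) j z := by
        rw [lintegral_const_mul]
        exact Finset.measurable_fun_prod _ fun l _ => meas_gf B (β l) l
    _ ≤ ENNReal.ofReal (K ^ m) * ENNReal.ofReal C ^ m := by gcongr
    _ = ENNReal.ofReal (K ^ m * C ^ m) := by
        rw [ENNReal.ofReal_mul (by positivity), ENNReal.ofReal_pow hC.le]

end Pool.Agent.H27.L1.H30.GZ
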